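import Mathlib

set_option autoImplicit false

/-!
# Max-sum matchings whose open diametral balls have no common point

For every dimension `d ≥ 4` and every even number `2 n ≥ 6` there are a set `X` of `2 n` points of
`ℝ ^ d` and a perfect matching of `X` of maximal total length such that the open balls which have
the edges of the matching as diameters have no common point.
-/

namespace Pool.Agent.Results.MP_c40d78_co.EveryDimension

/-- `M` is a perfect matching of the finite point set `X`: a set of unordered pairs of distinct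
points of `X` such that every point of `X` belongs to exactly one of the pairs. -/
def IsPerfectMatching {d : ℕ} (X : Finset (EuclideanSpace ℝ (Fin d)))
    (M : Finset (Sym2 (EuclideanSpace ℝ (Fin d)))) : Prop :=
  (∀ e ∈ M, ¬ e.IsDiag ∧ ∀ x ∈ e, x ∈ X) ∧ ∀ x ∈ X, ∃! e, e ∈ M ∧ x ∈ e

/-- The length of the segment with the unordered pair `e` of end points. -/
noncomputable def len {d : ℕ} (e : Sym2 (EuclideanSpace ℝ (Fin d))) : ℝ :=
  Sym2.lift ⟨fun a b => dist a b, fun a b => dist_comm a b⟩ e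

/-- The sum of the lengths of the edges of a matching. -/
noncomputable def totalLength {d : ℕ} (M : Finset (Sym2 (EuclideanSpace ℝ (Fin d)))) : ℝ :=
  ∑ e ∈ M, len e

/-- `M` is a max-sum matching of `X`: a perfect matching with the largest possible total length. -/
def IsMaxSumMatching {d : ℕ} (X : Finset (EuclideanSpace ℝ (Fin d)))
    (M : Finset (Sym2 (EuclideanSpace ℝ (Fin d)))) : Prop :=
  IsPerfectMatching X M ∧
    ∀ M' : Finset (Sym2 (EuclideanSpace ℝ (Fin d))), IsPerfectMatching X M' →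
      totalLength M' ≤ totalLength M

/-- The open ball induced by a segment: its centre is the midpoint of the segment and its radius
is half of the length of the segment. -/
noncomputable def openBall {d : ℕ} (e : Sym2 (EuclideanSpace ℝ (Fin d))) :
    Set (EuclideanSpace ℝ (Fin d)) :=
  Sym2.lift ⟨fun a b => Metric.ball (midpoint ℝ a b) (dist a b / 2), fun a b => by
    show Metric.ball (midpoint ℝ a b) (dist a b / 2) = Metric.ball (midpoint ℝ b a) (dist b a / 2)
    rw [midpoint_comm, dist_comm]⟩ e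

/-! ### The six points in `ℝ ^ 4` -/

/-- The coordinates of the six points: a big isosceles triangle in the plane of the first two
coordinates and a small similar one in the plane of the last two coordinates, both inscribed in
circles centred at the origin. -/
noncomputable def pt : Fin 6 → EuclideanSpace ℝ (Fin 4) :=
  ![!₂[3, 4, 0, 0], !₂[3, -4, 0, 0], !₂[-5, 0, 0, 0],
    !₂[0, 0, 3/10, 4/10], !₂[0, 0, 3/10, -(4/10)], !₂[0, 0, -(5/10), 0]]

/-- The matching of the six points. -/
def sg : Fin 6 → Fin 6 := ![3, 4, 5, 0, 1, 2]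

/-- The length of the three edges. -/
noncomputable def L : ℝ := √(25 + 1/4)

/-- Potentials. -/
noncomputable def w : Fin 6 → ℝ := ![9/2, 9/2, 9/2, L - 9/2, L - 9/2, L - 9/2]

/-- The other points, `(0, 0, ± (k + 1), 0)`. -/
noncomputable def far (k : ℕ) (b : Bool) : EuclideanSpace ℝ (Fin 4) :=
  !₂[0, 0, (if b then 1 else -1) * ((k : ℝ) + 1), 0]

/-- The index set of the points. -/
abbrev Ix (m : ℕ) : Type := Fin 6 ⊕ (Fin m × Bool)

/-- All points. -/
noncomputable def P (m : ℕ) : Ix m → EuclideanSpace ℝ (Fin 4)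
  | Sum.inl i => pt i
  | Sum.inr kb => far kb.1 kb.2

/-- All potentials. -/
noncomputable def u (m : ℕ) : Ix m → ℝ
  | Sum.inl i => w i
  | Sum.inr kb => (kb.1 : ℝ) + 1

/-- The matching. -/
def S (m : ℕ) : Ix m → Ix m
  | Sum.inl i => Sum.inl (sg i)
  | Sum.inr kb => Sum.inr (kb.1, !kb.2)

lemma L_ge : 5 ≤ L := by
  unfold L
  apply Real.le_sqrt_of_sq_le
  norm_num

lemma L_sq : L ^ 2 = 25 + 1/4 := by
  unfold L
  rw [Real.sq_sqrt]
  norm_num

lemma dist_le (a b : EuclideanSpace ℝ (Fin 4)) (c : ℝ) (hc : 0 ≤ c)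
    (h : ∑ k, (a k - b k) ^ 2 ≤ c ^ 2) : dist a b ≤ c := by
  rw [EuclideanSpace.dist_eq]
  apply Real.sqrt_le_iff.2
  refine ⟨hc, ?_⟩
  simpa [Real.dist_eq, sq_abs] using h

lemma dist_sq (a b : EuclideanSpace ℝ (Fin 4)) : dist a b ^ 2 = ∑ k, (a k - b k) ^ 2 := by
  rw [EuclideanSpace.dist_eq, Real.sq_sqrt]
  · simp [Real.dist_eq, sq_abs]
  · positivity

lemma w_ge (i : Fin 6) : 1/2 ≤ w i := by
  have h5 := L_ge
  fin_cases i <;> simp [w] <;> linarith

lemma dist_pt (i j : Fin 6) : dist (pt i) (pt j) ≤ w i + w j := by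
  have h5 := L_ge
  have hL := L_sq
  apply dist_le
  · linarith [w_ge i, w_ge j]
  · fin_cases i <;> fin_cases j <;> simp [w, pt, Fin.sum_univ_four] <;> nlinarith

lemma dist_far (i : Fin 6) (k : ℕ) (b : Bool) : dist (pt i) (far k b) ≤ w i + ((k : ℝ) + 1) := by
  have h5 := L_ge
  have hk : (0:ℝ) ≤ k := Nat.cast_nonneg k
  apply dist_le
  · linarith [w_ge i]
  · cases b
    · fin_cases i <;> simp [w, pt, far, Fin.sum_univ_four] <;> nlinarith
    · fin_cases i <;> simp [w, pt, far, Fin.sum_univ_four] <;> nlinarith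

lemma dist_far_far (k l : ℕ) (b c : Bool) :
    dist (far k b) (far l c) ≤ ((k : ℝ) + 1) + ((l : ℝ) + 1) := by
  have hk : (0:ℝ) ≤ k := Nat.cast_nonneg k
  have hl : (0:ℝ) ≤ l := Nat.cast_nonneg l
  apply dist_le
  · linarith
  · cases b <;> cases c <;> simp [far, Fin.sum_univ_four] <;> nlinarith [mul_nonneg hk hl]

lemma dist_P (m : ℕ) (i j : Ix m) : dist (P m i) (P m j) ≤ u m i + u m j := by
  rcases i with i | ⟨k, b⟩
  · rcases j with j | ⟨l, c⟩
    · exact dist_pt i j
    · exact dist_far i l c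
  · rcases j with j | ⟨l, c⟩
    · have := dist_far j k b
      rw [dist_comm] at this
      simp only [P, u]
      linarith
    · exact dist_far_far k l b c

lemma u_pos (m : ℕ) (i : Ix m) : 0 < u m i := by
  rcases i with i | ⟨k, b⟩
  · have := w_ge i
    simp only [u]
    linarith
  · simp only [u]
    positivity

lemma dist_S (m : ℕ) (i : Ix m) : dist (P m i) (P m (S m i)) = u m i + u m (S m i) := by
  have h5 := L_ge
  have hL := L_sq
  rcases i with i | ⟨k, b⟩
  · have h : dist (pt i) (pt (sg i)) ^ 2 = L ^ 2 := by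
      rw [dist_sq, hL]
      fin_cases i <;> simp [sg, pt, Fin.sum_univ_four] <;> norm_num
    have h2 : dist (pt i) (pt (sg i)) = L :=
      (pow_left_inj₀ dist_nonneg (by linarith) (by norm_num)).1 h
    simp only [P, S, u]
    rw [h2]
    fin_cases i <;> simp [sg, w]
  · have hk : (0:ℝ) ≤ (k : ℕ) := Nat.cast_nonneg _
    have h : dist (far k b) (far k (!b)) ^ 2 = (((k : ℕ) : ℝ) + 1 + (((k : ℕ) : ℝ) + 1)) ^ 2 := by
      rw [dist_sq]
      cases b <;> simp [far, Fin.sum_univ_four] <;> ring
    exact (pow_left_inj₀ dist_nonneg (add_pos (u_pos m _) (u_pos m _)).le (by norm_num)).1 h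

lemma S_invol (m : ℕ) (i : Ix m) : S m (S m i) = i := by
  rcases i with i | ⟨k, b⟩
  · fin_cases i <;> rfl
  · simp [S]

lemma P_inj (m : ℕ) : Function.Injective (P m) := by
  intro i j hij
  have h : ∀ k, P m i k = P m j k := fun k => by rw [hij]
  have h0 := h 0
  have h1 := h 1
  have h2 := h 2
  have h3 := h 3
  clear h hij
  rcases i with i | ⟨k, b⟩
  · rcases j with j | ⟨l, c⟩
    · by_contra hne
      have hne' : i ≠ j := fun e => hne (by rw [e])
      clear hne
      revert h0 h1 h2 h3 hne'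
      simp only [P]
      fin_cases i <;> fin_cases j <;> simp [pt] <;> norm_num
    · exfalso
      have hl : (0:ℝ) ≤ (l : ℕ) := Nat.cast_nonneg _
      revert h0 h1 h2 h3
      simp only [P]
      cases c <;> fin_cases i <;> simp [pt, far] <;> intro h <;> linarith
  · rcases j with j | ⟨l, c⟩
    · exfalso
      have hk : (0:ℝ) ≤ (k : ℕ) := Nat.cast_nonneg _
      revert h0 h1 h2 h3
      simp only [P]
      cases b <;> fin_cases j <;> simp [pt, far] <;> intro h <;> linarith
    · have hk : (0:ℝ) ≤ (k : ℕ) := Nat.cast_nonneg _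
      have hl : (0:ℝ) ≤ (l : ℕ) := Nat.cast_nonneg _
      simp only [P, far] at h2
      cases b <;> cases c <;> simp at h2
      · rw [Fin.ext h2]
      · linarith
      · linarith
      · rw [Fin.ext h2]

lemma S_ne (m : ℕ) (i : Ix m) : S m i ≠ i := by
  rcases i with i | ⟨k, b⟩
  · fin_cases i <;> simp [S, sg]
  · simp [S]

/-! ### Matchings and potentials -/

section General

variable {d : ℕ} {ι : Type} [Fintype ι]

open Classical in
/-- The sum over the edges of a perfect matching of the potentials of the end points. -/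
lemma sum_pot (X : Finset (EuclideanSpace ℝ (Fin d)))
    (M : Finset (Sym2 (EuclideanSpace ℝ (Fin d)))) (hM : IsPerfectMatching X M)
    (v : EuclideanSpace ℝ (Fin d) → ℝ) (F : Sym2 (EuclideanSpace ℝ (Fin d)) → ℝ)
    (hF : ∀ a b, F s(a, b) = v a + v b) : ∑ e ∈ M, F e = ∑ x ∈ X, v x := by
  have h1 : ∀ e ∈ M, F e = ∑ x ∈ X, if x ∈ e then v x else 0 := by
    intro e he
    obtain ⟨hd, hX⟩ := hM.1 e he
    induction e using Sym2.ind with
    | _ a b =>
      rw [Sym2.mk_isDiag_iff] at hd
      have ha : a ∈ X := hX a (Sym2.mem_mk_left a b)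
      have hb : b ∈ X := hX b (Sym2.mem_mk_right a b)
      rw [hF, ← Finset.sum_filter]
      have : X.filter (fun x => x ∈ s(a, b)) = {a, b} := by
        ext x
        simp only [Finset.mem_filter, Sym2.mem_iff, Finset.mem_insert, Finset.mem_singleton]
        constructor
        · exact fun h => h.2
        · rintro (rfl | rfl)
          · exact ⟨ha, Or.inl rfl⟩
          · exact ⟨hb, Or.inr rfl⟩
      rw [this, Finset.sum_pair hd]
  rw [Finset.sum_congr rfl h1, Finset.sum_comm]
  refine Finset.sum_congr rfl fun x hx => ?_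
  obtain ⟨e, ⟨he1, he2⟩, he3⟩ := hM.2 x hx
  rw [Finset.sum_eq_single_of_mem e he1]
  · rw [if_pos he2]
  · intro e' he' hne
    rw [if_neg]
    intro hx'
    exact hne (he3 e' ⟨he', hx'⟩)

open Classical in
lemma matching_of (p : ι → EuclideanSpace ℝ (Fin d)) (hp : Function.Injective p)
    (σ : ι → ι) (hσ : ∀ i, σ (σ i) = i) (hσ' : ∀ i, σ i ≠ i) :
    IsPerfectMatching (Finset.univ.image p)
      (Finset.univ.image fun i => s(p i, p (σ i))) := by
  constructor
  · intro e he
    obtain ⟨i, -, rfl⟩ := Finset.mem_image.1 he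
    constructor
    · rw [Sym2.mk_isDiag_iff]
      exact fun h => hσ' i (hp h).symm
    · intro x hx
      rw [Sym2.mem_iff] at hx
      rcases hx with rfl | rfl
      · exact Finset.mem_image_of_mem _ (Finset.mem_univ _)
      · exact Finset.mem_image_of_mem _ (Finset.mem_univ _)
  · intro x hx
    obtain ⟨i, -, rfl⟩ := Finset.mem_image.1 hx
    refine ⟨s(p i, p (σ i)), ⟨Finset.mem_image.2 ⟨i, Finset.mem_univ _, rfl⟩,
      Sym2.mem_mk_left _ _⟩, ?_⟩
    rintro e ⟨he, hxe⟩
    obtain ⟨j, -, rfl⟩ := Finset.mem_image.1 he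
    rw [Sym2.mem_iff] at hxe
    rcases hxe with h | h
    · rw [hp h]
    · have : i = σ j := hp h
      rw [this, hσ]
      exact Sym2.eq_swap

open Classical in
lemma isMax_of [Nonempty ι] (p : ι → EuclideanSpace ℝ (Fin d)) (hp : Function.Injective p)
    (σ : ι → ι) (hσ : ∀ i, σ (σ i) = i) (hσ' : ∀ i, σ i ≠ i) (v : ι → ℝ)
    (h1 : ∀ i j, dist (p i) (p j) ≤ v i + v j)
    (h2 : ∀ i, dist (p i) (p (σ i)) = v i + v (σ i)) :
    IsMaxSumMatching (Finset.univ.image p)
      (Finset.univ.image fun i => s(p i, p (σ i))) := by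
  have hM := matching_of p hp σ hσ hσ'
  refine ⟨hM, fun M' hM' => ?_⟩
  set g : EuclideanSpace ℝ (Fin d) → ℝ := fun x => v (Function.invFun p x) with hg
  have hgp : ∀ i, g (p i) = v i := fun i => by
    simp only [hg]
    rw [Function.leftInverse_invFun hp i]
  set F : Sym2 (EuclideanSpace ℝ (Fin d)) → ℝ :=
    Sym2.lift ⟨fun a b => g a + g b, fun a b => add_comm _ _⟩ with hF
  have hF' : ∀ a b, F s(a, b) = g a + g b := fun a b => rfl
  have e1 : totalLength M' ≤ ∑ e ∈ M', F e := by
    refine Finset.sum_le_sum fun e he => ?_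
    obtain ⟨-, hX⟩ := hM'.1 e he
    induction e using Sym2.ind with
    | _ a b =>
      obtain ⟨i, -, rfl⟩ := Finset.mem_image.1 (hX a (Sym2.mem_mk_left a b))
      obtain ⟨j, -, rfl⟩ := Finset.mem_image.1 (hX b (Sym2.mem_mk_right _ b))
      rw [hF', hgp, hgp]
      exact h1 i j
  have e2 : totalLength (Finset.univ.image fun i => s(p i, p (σ i))) =
      ∑ e ∈ Finset.univ.image (fun i => s(p i, p (σ i))), F e := by
    refine Finset.sum_congr rfl fun e he => ?_
    obtain ⟨i, -, rfl⟩ := Finset.mem_image.1 he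
    rw [hF', hgp, hgp]
    exact h2 i
  rw [e2, sum_pot _ _ hM g F hF', ← sum_pot _ _ hM' g F hF']
  exact e1

end General

/-- A linear isometry of `ℝ ^ 4` into `ℝ ^ d`. -/
lemma exists_isometry (d : ℕ) (hd : 4 ≤ d) :
    Nonempty (EuclideanSpace ℝ (Fin 4) →ₗᵢ[ℝ] EuclideanSpace ℝ (Fin d)) := by
  set b := (EuclideanSpace.basisFun (Fin 4) ℝ).toBasis with hbdef
  set c : Fin 4 → EuclideanSpace ℝ (Fin d) :=
    fun k => EuclideanSpace.basisFun (Fin d) ℝ (Fin.castLE hd k) with hc
  have hc' : Orthonormal ℝ c :=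
    (EuclideanSpace.basisFun (Fin d) ℝ).orthonormal.comp _ (Fin.castLE_injective hd)
  set f : EuclideanSpace ℝ (Fin 4) →ₗ[ℝ] EuclideanSpace ℝ (Fin d) := b.constr ℝ c with hf
  have hfb : f ∘ b = c := by
    funext k
    simp [hf]
  exact ⟨f.isometryOfOrthonormal (v := b) (by simp [hbdef]) (by rw [hfb]; exact hc')⟩

lemma inner_aux {d : ℕ} (x a : EuclideanSpace ℝ (Fin d)) (r : ℝ) (ha : ‖a‖ = r)
    (h : dist x a < r) : ‖x‖ ^ 2 < 2 * inner ℝ x a := by
  rw [dist_eq_norm] at h
  have h1 : ‖x - a‖ ^ 2 < r ^ 2 := pow_lt_pow_left₀ h (norm_nonneg _) (by norm_num)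
  rw [norm_sub_sq_real, ha] at h1
  linarith

/-- For every `d ≥ 4` and every `n ≥ 3` there are a set `X` of `2 n` points of `ℝ ^ d` and a
max-sum matching `M` of `X` such that the open balls induced by the edges of `M` have no common
point. -/
theorem result (d : ℕ) (hd : 4 ≤ d) (n : ℕ) (hn : 3 ≤ n) :
    ∃ (X : Finset (EuclideanSpace ℝ (Fin d))) (M : Finset (Sym2 (EuclideanSpace ℝ (Fin d)))),
      X.card = 2 * n ∧ IsMaxSumMatching X M ∧ (⋂ e ∈ M, openBall e) = ∅ := by
  classical
  obtain ⟨m, rfl⟩ := Nat.exists_eq_add_of_le hn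
  obtain ⟨φ⟩ := exists_isometry d hd
  have hinj : Function.Injective (fun i => φ (P m i)) := φ.injective.comp (P_inj m)
  refine ⟨Finset.univ.image (fun i => φ (P m i)),
    Finset.univ.image (fun i => s(φ (P m i), φ (P m (S m i)))), ?_, ?_, ?_⟩
  · rw [Finset.card_image_of_injective _ hinj, Finset.card_univ]
    simp [Ix, Fintype.card_sum, Fintype.card_prod]
    ring
  · exact isMax_of (fun i => φ (P m i)) hinj (S m) (S_invol m) (S_ne m) (u m)
      (fun i j => by
        rw [φ.dist_map]
        exact dist_P m i j)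
      (fun i => by
        rw [φ.dist_map]
        exact dist_S m i)
  · rw [Set.eq_empty_iff_forall_notMem]
    intro x hx
    rw [Set.mem_iInter₂] at hx
    have key : ∀ i : Fin 6, ‖x‖ ^ 2 < inner ℝ x (φ (pt i)) + inner ℝ x (φ (pt (sg i))) := by
      intro i
      have h1 := hx s(φ (P m (Sum.inl i)), φ (P m (S m (Sum.inl i))))
        (Finset.mem_image.2 ⟨Sum.inl i, Finset.mem_univ _, rfl⟩)
      have h2 : dist x (midpoint ℝ (φ (pt i)) (φ (pt (sg i)))) <
          dist (φ (pt i)) (φ (pt (sg i))) / 2 := h1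
      have h3 : dist (φ (pt i)) (φ (pt (sg i))) = L := by
        rw [φ.dist_map]
        have := dist_S m (Sum.inl i)
        simp only [P, S, u] at this
        rw [this]
        fin_cases i <;> simp [sg, w]
      rw [h3] at h2
      have h5 := L_ge
      have h4 : ‖midpoint ℝ (φ (pt i)) (φ (pt (sg i)))‖ = L / 2 := by
        have h6 : midpoint ℝ (φ (pt i)) (φ (pt (sg i))) =
            φ ((1 / 2 : ℝ) • (pt i + pt (sg i))) := by
          rw [midpoint_eq_smul_add, map_smul, map_add]
          simp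
        rw [h6, φ.norm_map]
        have h7 : ‖(1 / 2 : ℝ) • (pt i + pt (sg i))‖ ^ 2 = (L / 2) ^ 2 := by
          rw [EuclideanSpace.norm_sq_eq]
          have hL := L_sq
          have : (L / 2) ^ 2 = (25 + 1/4) / 4 := by rw [div_pow, hL]; norm_num
          rw [this]
          fin_cases i <;> simp [sg, pt, Fin.sum_univ_four] <;> norm_num
        exact (pow_left_inj₀ (norm_nonneg _) (by linarith) (by norm_num)).1 h7
      have h8 := inner_aux x _ (L / 2) h4 h2
      rw [midpoint_eq_smul_add, inner_smul_right, inner_add_right] at h8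
      simp at h8
      linarith
    have h9 : (5:ℝ) • pt 0 + (5:ℝ) • pt 1 + (6:ℝ) • pt 2 + ((5:ℝ) • pt 3 + (5:ℝ) • pt 4 +
        (6:ℝ) • pt 5) = 0 := by
      ext k
      fin_cases k <;> simp [pt] <;> norm_num
    have h10 : inner ℝ x (φ ((5:ℝ) • pt 0 + (5:ℝ) • pt 1 + (6:ℝ) • pt 2 + ((5:ℝ) • pt 3 +
        (5:ℝ) • pt 4 + (6:ℝ) • pt 5))) = 0 := by
      rw [h9, map_zero, inner_zero_right]
    simp only [map_add, map_smul, inner_add_right, inner_smul_right] at h10
    have k0 := key 0
    have k1 := key 1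
    have k2 := key 2
    have s0 : sg 0 = 3 := rfl
    have s1 : sg 1 = 4 := rfl
    have s2 : sg 2 = 5 := rfl
    rw [s0] at k0
    rw [s1] at k1
    rw [s2] at k2
    nlinarith [sq_nonneg ‖x‖]

end Pool.Agent.Results.MP_c40d78_co.EveryDimension
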